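import Pool.Agent.Lib.MP_baa34e_lc.H90.Chain

namespace Pool.Agent.Results.MP_baa34e_lc.CofinalityCase

open Pool.Agent.Lib.MP_baa34e_lc.H90

/-- Q2 in ZFC for every `κ < 𝔠` of uncountable cofinality such that
`cf([μ]^{≤ω}, ⊆) ≤ κ` for every uncountable `μ < cf κ` of countable cofinality (a vacuous
hypothesis when `cf κ < ℵ_ω`): the weak Baumgartner axiom at `κ` implies `κ < 𝔟`. -/
theorem result (κ : Cardinal.{0}) (hc : κ < Cardinal.continuum)
    (hcof : Cardinal.aleph0 < κ.ord.cof)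
    (hcov : ∀ μ : Cardinal.{0}, μ < κ.ord.cof → Cardinal.aleph0 < μ →
        μ.ord.cof = Cardinal.aleph0 → Order.cof {s : Set μ.out // s.Countable} ≤ κ)
    (hBA : BAminus κ) : κ < boundingNumber :=
  main_thm κ (hcof.trans_le (Ordinal.cof_ord_le κ)) hc (Or.inr (Or.inl ⟨hcof, hcov⟩)) hBA

end Pool.Agent.Results.MP_baa34e_lc.CofinalityCase
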