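import Pool.Agent.Lib.MP_baa34e_lc.H90.Chain

namespace Pool.Agent.Results.MP_baa34e_lc.CovMeagreCase

open Pool.Agent.Lib.MP_baa34e_lc.H90

/-- Q2 in ZFC for every uncountable `κ < 𝔠` with `κ ≤ cov(M)`: the weak Baumgartner axiom at `κ`
implies `κ < 𝔟`. -/
theorem result (κ : Cardinal.{0}) (hκ : Cardinal.aleph0 < κ) (hc : κ < Cardinal.continuum)
    (hcov : κ ≤ covMeagre) (hBA : BAminus κ) : κ < boundingNumber :=
  main_thm κ hκ hc (Or.inr (Or.inr hcov)) hBA

end Pool.Agent.Results.MP_baa34e_lc.CovMeagreCase
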