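import Pool.Agent.Lib.MP_baa34e_lc.H16.Mono

namespace Pool.Agent.Results.MP_baa34e_lc.MonotoneRegular

open Pool.Agent.Lib.MP_baa34e_lc.H90

/-- Q1 in ZFC for every regular `l < 𝔠` such that `cf([μ]^{≤ω}, ⊆) ≤ l` for every uncountable
`μ < l` of countable cofinality (a vacuous hypothesis when `l < ℵ_ω`): the weak Baumgartner
axiom at `l` implies the weak Baumgartner axiom at every uncountable `κ < l`. -/
theorem result (κ l : Cardinal.{0}) (hκ : Cardinal.aleph0 < κ) (hκl : κ < l)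
    (hc : l < Cardinal.continuum) (hreg : l.IsRegular)
    (hcov : ∀ μ : Cardinal.{0}, μ < l → Cardinal.aleph0 < μ →
        μ.ord.cof = Cardinal.aleph0 → Order.cof {s : Set μ.out // s.Countable} ≤ l)
    (hBA : BAminus l) : BAminus κ := by
  have h1 : l.ord.cof = l := hreg.cof_ord
  have hb : l < boundingNumber :=
    main_thm l (hκ.trans hκl) hc
      (Or.inr (Or.inl ⟨h1.symm ▸ hκ.trans hκl, fun μ hμ => hcov μ (h1 ▸ hμ)⟩)) hBA
  exact Pool.Agent.Lib.MP_baa34e_lc.H16.mono hκ hκl hreg hb.le hBA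

end Pool.Agent.Results.MP_baa34e_lc.MonotoneRegular
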