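import Pool.Agent.Lib.MP_baa34e_lc.H81.Final

namespace Pool.Agent.Results.MP_baa34e_lc.QSetCharacterization

open Pool.Agent.Lib.MP_baa34e_lc.H81

/-- The least uncountable cardinal at which the weak Baumgartner principle fails is exactly the
least size of a subset of the Cantor space that is not a Q-set. -/
theorem result :
    IsLeast {κ : Cardinal.{0} | Cardinal.aleph0 < κ ∧ ¬ BAminus κ} q0 :=
  ⟨⟨aleph0_lt_q0, not_ba_q0⟩, fun κ hκ => not_lt.1 fun h =>
    hκ.2 ((main κ).2 h κ hκ.1 le_rfl)⟩

end Pool.Agent.Results.MP_baa34e_lc.QSetCharacterization
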